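import Mathlib

/-!
# Specialisations of a linear system over `k[X]`

If a linear system `T(c) x = b(c)` over `k[X]` is solvable for infinitely many `c` in `k`, then
`T x = q b` is solvable over `k[X]` for some `q ≠ 0`.
-/

open Polynomial

namespace Pool.Agent.WPrim33

theorem lemA {k : Type*} [Field k] {m n : Type*} [Fintype m] [Fintype n]
    (T : Matrix m n k[X]) (b : m → k[X])
    (h : {c : k | ∃ x : n → k, ∀ i, ∑ j, (T i j).eval c * x j = (b i).eval c}.Infinite) :
    ∃ q : k[X], q ≠ 0 ∧ ∃ x : n → k[X], ∀ i, ∑ j, T i j * x j = q * b i := by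
  classical
  let K := FractionRing k[X]
  let φ : k[X] →+* K := algebraMap k[X] K
  have hφ : Function.Injective φ := IsFractionRing.injective k[X] K
  let TK : Matrix m n K := T.map φ
  let bK : m → K := fun i => φ (b i)
  by_cases hb : bK ∈ LinearMap.range TK.mulVecLin
  · obtain ⟨x, hx⟩ := hb
    obtain ⟨q, hq⟩ := IsLocalization.exist_integer_multiples_of_finite
      (nonZeroDivisors k[X]) x
    choose y hy using hq
    refine ⟨q, nonZeroDivisors.ne_zero q.2, y, fun i => hφ ?_⟩
    have h1 : ∑ j, TK i j * x j = bK i := by
      have := congrFun hx i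
      simpa [Matrix.mulVecLin_apply, Matrix.mulVec, dotProduct] using this
    rw [map_sum, map_mul, show φ (b i) = bK i from rfl, ← h1, Finset.mul_sum]
    refine Finset.sum_congr rfl fun j _ => ?_
    rw [map_mul]
    have h2 : φ (y j) = φ (q : k[X]) * x j := by
      have := hy j
      rw [Algebra.smul_def] at this
      exact this
    rw [h2]
    show φ (T i j) * _ = _
    simp only [TK, Matrix.map_apply]
    ring
  · exfalso
    obtain ⟨f, hf1, hf2⟩ := Submodule.exists_le_ker_of_notMem hb
    let y : m → K := fun i => f (Pi.single i 1)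
    have hfy : ∀ v : m → K, f v = ∑ i, y i * v i := by
      intro v
      have : v = ∑ i, v i • (Pi.single i (1 : K) : m → K) := by
        ext j
        simp [Finset.sum_apply, Pi.single_apply]
      conv_lhs => rw [this]
      rw [map_sum]
      refine Finset.sum_congr rfl fun i _ => ?_
      rw [map_smul, smul_eq_mul, mul_comm]
    obtain ⟨q, hq⟩ := IsLocalization.exist_integer_multiples_of_finite
      (nonZeroDivisors k[X]) y
    choose z hz using hq
    have hz' : ∀ i, φ (z i) = φ (q : k[X]) * y i := by
      intro i
      have := hz i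
      rw [Algebra.smul_def] at this
      exact this
    have h1 : ∀ j, ∑ i, z i * T i j = 0 := by
      intro j
      apply hφ
      rw [map_sum, map_zero]
      have h3 : f (TK.mulVecLin (Pi.single j 1)) = 0 := hf2 ⟨_, rfl⟩
      rw [hfy] at h3
      have h4 : ∀ i, TK.mulVecLin (Pi.single j 1) i = TK i j := by
        intro i
        simp [Matrix.mulVecLin_apply, Matrix.mulVec_single_one]
      calc ∑ i, φ (z i * T i j) = φ (q : k[X]) * ∑ i, y i * TK.mulVecLin (Pi.single j 1) i := by
            rw [Finset.mul_sum]
            refine Finset.sum_congr rfl fun i _ => ?_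
            rw [map_mul, hz', h4]
            simp only [TK, Matrix.map_apply]
            ring
        _ = 0 := by rw [h3, mul_zero]
    have h2 : ∑ i, z i * b i ≠ 0 := by
      intro h0
      apply hf1
      rw [hfy]
      have h5 : φ (q : k[X]) * ∑ i, y i * bK i = 0 := by
        rw [Finset.mul_sum, ← map_zero φ, ← h0, map_sum]
        refine Finset.sum_congr rfl fun i _ => ?_
        rw [map_mul, hz']
        simp only [bK]
        ring
      rcases mul_eq_zero.1 h5 with h6 | h6
      · exact absurd (hφ (h6.trans (map_zero φ).symm)) (nonZeroDivisors.ne_zero q.2)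
      · exact h6
    apply h2
    apply Polynomial.eq_zero_of_infinite_isRoot
    refine h.mono ?_
    rintro c ⟨x, hx⟩
    show (∑ i, z i * b i).IsRoot c
    rw [Polynomial.IsRoot, Polynomial.eval_finsetSum]
    calc ∑ i, (z i * b i).eval c = ∑ i, (z i).eval c * ∑ j, (T i j).eval c * x j := by
          refine Finset.sum_congr rfl fun i _ => ?_
          rw [Polynomial.eval_mul, hx i]
      _ = ∑ j, (∑ i, z i * T i j).eval c * x j := by
          simp only [Finset.mul_sum, Polynomial.eval_finsetSum, Finset.sum_mul,
            Polynomial.eval_mul]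
          rw [Finset.sum_comm]
          refine Finset.sum_congr rfl fun j _ => Finset.sum_congr rfl fun i _ => ?_
          ring
      _ = 0 := by simp [h1]

end Pool.Agent.WPrim33
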